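import Pool.Agent.H39.Newt3.Base
import Pool.Agent.H2.Newt2.RAT

/-!
# Project NEWTON3, module RTB: denominators which do not depend on the thresholds
-/

set_option autoImplicit false

namespace Pool.Newt3

open MvPolynomial Pool.Agent.H39.MonoR Pool.Agent.H75.Mono Pool.Newt Pool.Newt2

namespace RTBx

open Pool.Newt2.RATx

variable {σ I : Type} [Fintype σ] [Fintype I]

/-- the claim -/
def Cl (a : I → σ → ℕ) (Sl : Finset (Co σ I)) : Prop :=
  ∃ W : Multiset (σ → ℕ), (∀ w ∈ W, Rigid a w ∧ 0 < Nw a w ∧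
      ∀ ξ ∈ Sl, ξ ≠ none → lam a (fun l => (w l : ℤ)) (Nw a w) ξ = 0) ∧
    ∀ c : ℕ, ∃ N0 : ℕ, ∀ (X : ℝ) (φ : Co σ I → ℤ → ℝ), 0 < X → X < 1 → (∀ ξ, Thr c (φ ξ)) →
      (∀ ξ ∈ Sl, Slb c (φ ξ)) → (∀ v, v ≤ 0 → φ none v = 0) →
      ∀ N, N0 ≤ N → PowerSeries.coeff N (dW a X W * Ser a X φ) = 0

theorem step (hTEL : STel) [Nonempty I] (a : I → σ → ℕ) (Sl : Finset (Co σ I))
    (w : σ → ℕ) (m : ℕ) (hw : ∀ ξ ∈ Sl, lam a (fun l => (w l : ℤ)) m ξ = 0)
    (IH : ∀ Sl' : Finset (Co σ I), Sl ⊂ Sl' → Cl a Sl') :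
    ∃ W : Multiset (σ → ℕ),
    (∀ w ∈ W, Rigid a w ∧ 0 < Nw a w ∧
      ∀ ξ ∈ Sl, ξ ≠ none → lam a (fun l => (w l : ℤ)) (Nw a w) ξ = 0) ∧
    ∀ c : ℕ, ∃ N0 : ℕ, ∀ (X : ℝ) (φ : Co σ I → ℤ → ℝ), 0 < X → X < 1 → (∀ ξ, Thr c (φ ξ)) →
      (∀ ξ ∈ Sl, Slb c (φ ξ)) → (∀ v, v ≤ 0 → φ none v = 0) →
      ∀ N, N0 ≤ N → PowerSeries.coeff N (dW a X W *
        ((1 - PowerSeries.C (X ^ (∑ l, w l)) * PowerSeries.X ^ m) * Ser a X φ)) = 0 := by
  classical
  set c' : ℕ := ∑ ξ, (lam a (fun l => (w l : ℤ)) m ξ).natAbs with hc'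
  have hc : ∀ ξ, (lam a (fun l => (w l : ℤ)) m ξ).natAbs ≤ c' := fun ξ =>
    Finset.single_le_sum (f := fun ξ => (lam a (fun l => (w l : ℤ)) m ξ).natAbs)
      (fun _ _ => Nat.zero_le _) (Finset.mem_univ ξ)
  have hex : ∀ ξ : Co σ I, ∃ W : Multiset (σ → ℕ),
      (∀ w ∈ W, Rigid a w ∧ 0 < Nw a w ∧
        ∀ ξ ∈ Sl, ξ ≠ none → lam a (fun l => (w l : ℤ)) (Nw a w) ξ = 0) ∧
      ∀ c : ℕ, ∃ N0 : ℕ, (ξ ∉ Sl → ∀ (X : ℝ) (φ : Co σ I → ℤ → ℝ), 0 < X → X < 1 →
        (∀ ξ, Thr (c + c') (φ ξ)) →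
        (∀ ξ' ∈ insert ξ Sl, Slb (c + c') (φ ξ')) → (∀ v, v ≤ 0 → φ none v = 0) →
        ∀ N, N0 ≤ N → PowerSeries.coeff N (dW a X W * Ser a X φ) = 0) := by
    intro ξ
    by_cases hξ : ξ ∈ Sl
    · exact ⟨0, fun w hw => absurd hw (Multiset.notMem_zero w), fun _ => ⟨0, fun h => absurd hξ h⟩⟩
    · obtain ⟨W, h1, h2⟩ := IH (insert ξ Sl) (Finset.ssubset_insert hξ)
      refine ⟨W, fun w hw => ⟨(h1 w hw).1, (h1 w hw).2.1, fun ξ' hξ' hn =>
        (h1 w hw).2.2 ξ' (Finset.mem_insert_of_mem hξ') hn⟩, fun c => ?_⟩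
      obtain ⟨N0, h3⟩ := h2 (c + c')
      exact ⟨N0, fun _ => h3⟩
  choose W hW hV' using hex
  refine ⟨∑ ξ, W ξ, ?_, fun c => ?_⟩
  · intro w hw
    obtain ⟨ξ, _, hξ⟩ := Multiset.mem_sum.1 hw
    exact hW ξ w hξ
  · choose N0 hV using fun ξ => hV' ξ c
    refine ⟨∑ ξ, N0 ξ + ((∑ ξ, W ξ).map (Nw a)).sum, ?_⟩
    intro X φ hX0 hX1 hthr hslb hnone
    obtain ⟨Φ, hΦ, hΦ'⟩ := hTEL σ I a X hX0 hX1 w m c φ hthr hnone
    rw [hΦ, Finset.mul_sum]
    refine Vn.sum _ fun ξ _ => ?_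
    by_cases hξ0 : lam a (fun l => (w l : ℤ)) m ξ = 0
    · rw [ser_zero a X (Φ ξ) ξ, mul_zero]
      · exact Vn.zero _
      · intro v
        rw [(hΦ' ξ).1, hξ0]
        show φ ξ v - φ ξ (v - 0) = 0
        rw [sub_zero, sub_self]
    · have hξ : ξ ∉ Sl := fun h => hξ0 (hw ξ h)
      have h1 : Vn (N0 ξ) (dW a X (W ξ) * Ser a X (Φ ξ)) := by
        refine hV ξ hξ X (Φ ξ) hX0 hX1 ?_ ?_ ?_
        · intro ξ'
          exact (hthr ξ').var (hc ξ') ((hΦ' ξ).2 ξ')
        · intro ξ' hξ'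
          rcases Finset.mem_insert.1 hξ' with rfl | h
          · rw [(hΦ' ξ').1]
            exact (hthr ξ').diff (hc ξ')
          · exact (hslb ξ' h).var (hc ξ') ((hΦ' ξ).2 ξ')
        · intro v hv
          have hm : lam a (fun l => (w l : ℤ)) m none = (m : ℤ) := rfl
          have h2 := (hΦ' ξ).2 none
          rw [hm] at h2
          have h3 : φ none v = 0 := hnone v hv
          have h4 : φ none (v - m) = 0 := hnone _ (by omega)
          rcases h2 with h | h | h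
          · rw [h]; exact h3
          · rw [h]; exact h4
          · rw [h]
            show φ none v - φ none (v - m) = 0
            rw [h3, h4, sub_zero]
      obtain ⟨U, hU⟩ : ∃ U, ∑ ξ, W ξ = W ξ + U :=
        Multiset.le_iff_exists_add.1
          (Finset.single_le_sum (f := W) (fun _ _ => Multiset.zero_le _) (Finset.mem_univ ξ))
      have h2 : dW a X (∑ ξ, W ξ) * Ser a X (Φ ξ) =
          dW a X U * (dW a X (W ξ) * Ser a X (Φ ξ)) := by
        rw [hU, dW_add]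
        ring
      rw [h2]
      refine (h1.dw U).mono ?_
      rw [hU, Multiset.map_add, Multiset.sum_add]
      have := Finset.single_le_sum (f := N0) (fun _ _ => Nat.zero_le _) (Finset.mem_univ ξ)
      omega

end RTBx

open RTBx Pool.Newt2.RATx in
theorem sRtb (hTEL : STel) (hFNR : SFnr) (hMIN : SMin) : SRtb := by
  classical
  intro σ I _ _ _ a Sl
  have main : ∀ (k : ℕ) (Sl : Finset (Co σ I)), (Finset.univ \ Sl).card = k →
      RTBx.Cl a Sl := by
    intro k
    induction k using Nat.strong_induction_on with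
    | _ k IHk =>
      intro Sl hk
      have IH : ∀ Sl' : Finset (Co σ I), Sl ⊂ Sl' → RTBx.Cl a Sl' := by
        intro Sl' hSl'
        refine IHk _ ?_ Sl' rfl
        rw [← hk]
        have h1 := Finset.card_lt_card hSl'
        have h2 := Finset.card_le_univ Sl'
        rw [Finset.card_univ_sdiff, Finset.card_univ_sdiff]
        omega
      by_cases h0 : none ∈ Sl
      · refine ⟨0, fun w hw => absurd hw (Multiset.notMem_zero w), fun c => ⟨c, ?_⟩⟩
        intro X φ hX0 hX1 hthr hslb hnone N hN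
        have hd : dW a X (0 : Multiset (σ → ℕ)) = 1 := by simp [dW]
        rw [hd, one_mul, Ser, PowerSeries.coeff_mk]
        rw [tsum_congr (fun u => by
          rw [Finset.prod_eq_zero (Finset.mem_univ none)
            ((hslb none h0).2 _ (by show (c : ℤ) ≤ (N : ℤ); exact_mod_cast hN)), zero_mul]),
          tsum_zero]
      by_cases hA : ∃ l, some (Sum.inl l) ∉ Sl ∧ ∀ i, some (Sum.inr i) ∈ Sl → a i l = 0
      · obtain ⟨l, hl, hl'⟩ := hA
        have hw : ∀ ξ ∈ Sl, lam a (fun l' => ((Pi.single l 1 : σ → ℕ) l' : ℤ)) (0 : ℕ) ξ = 0 := by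
          intro ξ hξ
          rcases ξ with _ | l' | i
          · exact absurd hξ h0
          · show ((Pi.single l 1 : σ → ℕ) l' : ℤ) = 0
            have : l' ≠ l := by
              rintro rfl
              exact hl hξ
            rw [Pi.single_eq_of_ne this]
            rfl
          · rw [lam_nat]
            have : dot (Pi.single l 1) (a i) = a i l := by
              simp [dot, Pi.single_apply]
            rw [this, hl' i hξ]
            rfl
        obtain ⟨W, hW, hV⟩ := RTBx.step hTEL a Sl (Pi.single l 1) 0 hw IH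
        refine ⟨W, hW, fun c => ?_⟩
        obtain ⟨N0, hV⟩ := hV c
        refine ⟨N0, ?_⟩
        intro X φ hX0 hX1 hthr hslb hnone N hN
        have h1 := hV X φ hX0 hX1 hthr hslb hnone N hN
        have e1 : ∑ l', (Pi.single l 1 : σ → ℕ) l' = 1 := by
          simp [Pi.single_apply]
        have e2 : dW a X W * ((1 - PowerSeries.C (X ^ (∑ l', (Pi.single l 1 : σ → ℕ) l')) *
            PowerSeries.X ^ 0) * Ser a X φ) =
            PowerSeries.C (1 - X) * (dW a X W * Ser a X φ) := by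
          rw [e1, pow_one, pow_zero, mul_one, map_sub, map_one]
          ring
        rw [e2, PowerSeries.coeff_C_mul] at h1
        rcases mul_eq_zero.1 h1 with h | h
        · linarith
        · exact h
      have hA' : ∀ l, some (Sum.inl l) ∉ Sl → ∃ i, some (Sum.inr i) ∈ Sl ∧ a i l ≠ 0 := by
        intro l hl
        by_contra hc
        push Not at hc
        exact hA ⟨l, hl, hc⟩
      by_cases hB : ∃ (w : σ → ℕ) (m : ℕ), (∀ ξ, 0 ≤ lam a (fun l => (w l : ℤ)) m ξ) ∧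
          (∀ ξ ∈ Sl, lam a (fun l => (w l : ℤ)) m ξ = 0) ∧ m ≠ 0
      · obtain ⟨w, hwr, hwN, hw0⟩ := hMIN σ I a Sl h0 hA' hB
        obtain ⟨W, hW, hV⟩ := RTBx.step hTEL a Sl w (Nw a w) hw0 IH
        refine ⟨w ::ₘ W, ?_, fun c => ?_⟩
        · intro w' hw'
          rcases Multiset.mem_cons.1 hw' with rfl | h
          · exact ⟨hwr, hwN, fun ξ hξ _ => hw0 ξ hξ⟩
          · exact hW w' h
        · obtain ⟨N0, hV⟩ := hV c
          refine ⟨N0, ?_⟩
          intro X φ hX0 hX1 hthr hslb hnone N hN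
          have h1 := hV X φ hX0 hX1 hthr hslb hnone N hN
          have e1 : dW a X (w ::ₘ W) =
            (1 - PowerSeries.C (X ^ (∑ l, w l)) * PowerSeries.X ^ (Nw a w)) * dW a X W := by
            simp [dW]
          have e2 : dW a X (w ::ₘ W) * Ser a X φ = dW a X W *
              ((1 - PowerSeries.C (X ^ (∑ l, w l)) * PowerSeries.X ^ (Nw a w)) * Ser a X φ) := by
            rw [e1]
            ring
          rw [e2]
          exact h1
      · have hB' : ∀ (w : σ → ℕ) (m : ℕ), (∀ ξ, 0 ≤ lam a (fun l => (w l : ℤ)) m ξ) →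
            (∀ ξ ∈ Sl, lam a (fun l => (w l : ℤ)) m ξ = 0) → m = 0 := by
          intro w m h1 h2
          by_contra hm
          exact hB ⟨w, m, h1, h2, hm⟩
        refine ⟨0, fun w hw => absurd hw (Multiset.notMem_zero w), fun c => ?_⟩
        obtain ⟨N0, hN0⟩ := hFNR σ I a Sl c hB'
        refine ⟨N0, ?_⟩
        intro X φ hX0 hX1 hthr hslb hnone N hN
        have hd : dW a X (0 : Multiset (σ → ℕ)) = 1 := by simp [dW]
        rw [hd, one_mul, Ser, PowerSeries.coeff_mk]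
        have hz : ∀ u : σ → ℤ, (∏ ξ, φ ξ (lam a u N ξ)) * X ^ (∑ l, u l) = 0 := by
          intro u
          by_contra hne
          have hp : (∏ ξ, φ ξ (lam a u N ξ)) ≠ 0 := left_ne_zero_of_mul hne
          rw [Finset.prod_ne_zero_iff] at hp
          refine hN0 u N hN ?_ ?_
          · intro ξ
            by_contra hlt
            exact hp ξ (Finset.mem_univ ξ) ((hthr ξ).1 _ (by omega))
          · intro ξ hξ
            by_contra hlt
            exact hp ξ (Finset.mem_univ ξ) ((hslb ξ hξ).2 _ (by omega))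
        rw [tsum_congr hz, tsum_zero]
  exact main _ Sl rfl

end Pool.Newt3
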