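import Pool.Agent.H39.Newt3.Base
import Pool.Agent.H34.Newt2.ZTW

/-!
# Project NEWTON3, module ZTB: removal of the poles in a set
-/

set_option autoImplicit false

namespace Pool.Newt3

open MvPolynomial Pool.Agent.H39.MonoR Pool.Agent.H75.Mono Pool.Newt Pool.Newt2

namespace ZtbAux

open Pool.Newt2.ZtwAux

variable {σ I : Type} [Fintype σ] [Fintype I]

/-- the polynomial of a denominator -/
noncomputable def eP (a : I → σ → ℕ) (x : ℝ) (W : Multiset (σ → ℕ)) : Polynomial ℂ :=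
  (W.map fun w => (1 - Polynomial.C ((x : ℂ)⁻¹ ^ (∑ l, w l)) * Polynomial.X ^ (Nw a w) :
    Polynomial ℂ)).prod

omit [Fintype I] in
theorem coe_eP (a : I → σ → ℕ) (x : ℝ) (W : Multiset (σ → ℕ)) :
    ((eP a x W : Polynomial ℂ) : PowerSeries ℂ) =
      PowerSeries.map Complex.ofRealHom (dW a x⁻¹ W) := by
  induction W using Multiset.induction_on with
  | empty =>
    unfold eP dW
    rw [Multiset.map_zero, Multiset.prod_zero, Multiset.map_zero, Multiset.prod_zero, map_one,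
      Polynomial.coe_one]
  | cons w W ih =>
    have h1 : eP a x (w ::ₘ W) = (1 - Polynomial.C ((x : ℂ)⁻¹ ^ (∑ l, w l)) *
        Polynomial.X ^ (Nw a w)) * eP a x W := by
      unfold eP
      rw [Multiset.map_cons, Multiset.prod_cons]
    have h2 : dW a x⁻¹ (w ::ₘ W) =
        (1 - PowerSeries.C (x⁻¹ ^ (∑ l, w l)) * PowerSeries.X ^ (Nw a w)) * dW a x⁻¹ W := by
      unfold dW
      rw [Multiset.map_cons, Multiset.prod_cons]
    have h3 : PowerSeries.map Complex.ofRealHom ((PowerSeries.X : PowerSeries ℝ) ^ Nw a w) =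
        PowerSeries.X ^ Nw a w := by
      rw [map_pow, PowerSeries.map_X]
    have h4 : Complex.ofRealHom (x⁻¹ ^ (∑ l, w l)) = (x : ℂ)⁻¹ ^ (∑ l, w l) := by
      rw [map_pow, map_inv₀]
      rfl
    rw [h1, h2, Polynomial.coe_mul, ih, map_mul, Polynomial.coe_sub, Polynomial.coe_one,
      Polynomial.coe_mul, Polynomial.coe_C, Polynomial.coe_pow, Polynomial.coe_X, map_sub, map_one,
      map_mul, PowerSeries.map_C, h3, h4]

omit [Fintype I] in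
theorem eP_eval_ne (a : I → σ → ℕ) {x : ℝ} (hx : 1 < x) (W : Multiset (σ → ℕ)) {β : ℝ}
    (hW : ∀ w ∈ W, β * (Nw a w : ℕ) ≠ ((∑ l, w l : ℕ) : ℝ)) {z : ℂ} (hz : ‖z‖ = x ^ β) :
    (eP a x W).eval z ≠ 0 := by
  induction W using Multiset.induction_on with
  | empty =>
    unfold eP
    rw [Multiset.map_zero, Multiset.prod_zero, Polynomial.eval_one]
    exact one_ne_zero
  | cons w W ih =>
    have h1 : eP a x (w ::ₘ W) = (1 - Polynomial.C ((x : ℂ)⁻¹ ^ (∑ l, w l)) *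
        Polynomial.X ^ (Nw a w)) * eP a x W := by
      unfold eP
      rw [Multiset.map_cons, Multiset.prod_cons]
    rw [h1, Polynomial.eval_mul]
    exact mul_ne_zero (den_eval_ne hx (hW w (Multiset.mem_cons_self w W)) hz)
      (ih fun w' hw' => hW w' (Multiset.mem_cons_of_mem hw'))

theorem map_comp_ev (x : ℝˣ) (Φ : PowerSeries (LaurentPolynomial ℤ)) :
    PowerSeries.map (Complex.ofRealHom.comp (ev x)) Φ =
      PowerSeries.map Complex.ofRealHom (PowerSeries.map (ev x) Φ) := by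
  ext N
  rw [PowerSeries.coeff_map, PowerSeries.coeff_map, PowerSeries.coeff_map]
  rfl

omit [Fintype I] in
theorem regC_of_dW (a : I → σ → ℕ) (x : ℝˣ) (hx : 1 < (x : ℝ)) (W : Multiset (σ → ℕ)) (M : ℕ)
    (Φ : PowerSeries (LaurentPolynomial ℤ)) {β : ℝ}
    (hW : ∀ w ∈ W, β * (Nw a w : ℕ) ≠ ((∑ l, w l : ℕ) : ℝ))
    (h : ∀ N, M ≤ N → PowerSeries.coeff N (dW a (↑(x⁻¹) : ℝ) W * PowerSeries.map (ev x) Φ) = 0) :
    RegC ((x : ℝ) ^ β) (PowerSeries.map (Complex.ofRealHom.comp (ev x)) Φ) := by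
  refine ⟨eP a x W, fun z hz => eP_eval_ne a hx W hW hz, M, fun N hN => ?_⟩
  rw [coe_eP, map_comp_ev, ← map_mul, PowerSeries.coeff_map]
  have h1 := h N hN
  rw [Units.val_inv_eq_inv_val] at h1
  rw [h1, map_zero]

/-- the hypothesis on the ratios -/
def Hyp (a : I → σ → ℕ) (B : Set ℚ) : Prop :=
  ∀ α ∈ B, (Simp a α ∧ ∃ K, Fintype.card I < K ∧ Nonempty (Rec a ∅ α K)) ∨
    ∃ (Y : Finset I) (l : I → σ), (∀ i ∈ Y, a i (l i) = 1) ∧ ∀ w, Rigid a w → 0 < Nw a w →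
      ((∑ j, w j : ℕ) : ℚ) = -α * (Nw a w : ℚ) → Lab a Y l w

open Classical in
theorem key (hPsi : SPsi) (hPsb : SPsb) (hInb : SInb) [Nonempty I] [Nonempty σ] (a : I → σ → ℕ)
    (B : Set ℚ) (hB : Hyp a B) :
    ∃ R : Finset (σ → ℕ), (∀ w ∈ R, Rigid a w ∧ 0 < Nw a w ∧
      -((∑ j, w j : ℕ) : ℚ) / (Nw a w : ℚ) ∉ B) ∧
      ∀ D : Finset I → ℤ, Inv2 a D → ∀ Φ : PowerSeries (LaurentPolynomial ℤ),
      ((D ∅ = 0 ∧ Φ = Psi a D) ∨ (D ∅ = 1 ∧ Φ = (1 - PowerSeries.X) * Psi a D - QQ a)) →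
      ∃ (W' : Multiset (ℕ × ℕ)) (N0 : ℕ), (∀ p ∈ W', ∃ w ∈ R, p = (∑ j, w j, Nw a w)) ∧
        ∀ N, N0 ≤ N → PowerSeries.coeff N (dP W' * Φ) = 0 := by
  obtain ⟨W, N0, hW, hW0⟩ := hPsi σ I a ∅ (fun _ => Classical.arbitrary σ)
    (fun i hi => absurd hi (Finset.notMem_empty i))
  refine ⟨W.toFinset.filter fun w => -((∑ j, w j : ℕ) : ℚ) / (Nw a w : ℚ) ∉ B, fun w hw => ?_,
    fun D hD Φ hΦ => ?_⟩
  · obtain ⟨h1, h2⟩ := Finset.mem_filter.1 hw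
    obtain ⟨h3, h4, -⟩ := hW w (Multiset.mem_toFinset.1 h1)
    exact ⟨h3, h4, h2⟩
  · have hreg : ∀ w ∈ W, -((∑ j, w j : ℕ) : ℚ) / (Nw a w : ℚ) ∈ B → ∀ x : ℝˣ, 1 < (x : ℝ) →
        RegC ((x : ℝ) ^ (((∑ j, w j : ℕ) : ℝ) / ((Nw a w : ℕ) : ℝ)))
          (PowerSeries.map (Complex.ofRealHom.comp (ev x)) Φ) := by
      intro w hw hwB x hx
      have hN : (0 : ℚ) < (Nw a w : ℚ) := Nat.cast_pos.2 (hW w hw).2.1
      rcases hB _ hwB with ⟨hS, K, hK, hR⟩ | ⟨Y, l, hl, hLab⟩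
      · have he : (((∑ j, w j : ℕ) : ℝ) / ((Nw a w : ℕ) : ℝ)) =
            -((-((∑ j, w j : ℕ) : ℚ) / (Nw a w : ℚ) : ℚ) : ℝ) := by
          rw [Rat.cast_div, Rat.cast_neg, Rat.cast_natCast, Rat.cast_natCast, neg_div, neg_neg]
        rw [he]
        have h1 := hPsb σ I a _ K hR hK hS x hx D hD
        rcases hΦ with ⟨h0, rfl⟩ | ⟨h0, rfl⟩
        · exact h1.1 h0
        · exact h1.2 h0
      · obtain ⟨Ww, Mw, h3, h4⟩ := hPsi σ I a Y l hl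
        refine regC_of_dW a x hx Ww Mw Φ (fun w' hw' he => ?_) (fun N hN => ?_)
        · obtain ⟨hr, hN', hl'⟩ := h3 w' hw'
          refine hl' (hLab w' hr hN' ?_)
          have h5 : ((((∑ j, w j : ℕ) : ℚ) / (Nw a w : ℚ) * (Nw a w' : ℚ) : ℚ) : ℝ) =
              (((∑ j, w' j : ℕ) : ℚ) : ℝ) := by
            rw [Rat.cast_mul, Rat.cast_div, Rat.cast_natCast, Rat.cast_natCast, Rat.cast_natCast,
              Rat.cast_natCast]
            exact he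
          have h6 := Rat.cast_injective h5
          rw [neg_div, neg_neg]
          exact h6.symm
        · have h5 := h4 x hx D hD N hN
          rcases hΦ with ⟨h0, rfl⟩ | ⟨h0, rfl⟩
          · exact h5.1 h0
          · exact h5.2 h0
    have h1 := hInb Φ (prs a W) N0 {p | -(p.1 : ℚ) / (p.2 : ℚ) ∈ B} (by
      intro p hp
      obtain ⟨w, hw, rfl⟩ := Multiset.mem_map.1 hp
      exact (hW w hw).2.1) (by
      intro x hx N hN
      rw [map_mul, ← dW_eq]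
      rcases hΦ with ⟨h0, rfl⟩ | ⟨h0, rfl⟩
      · exact (hW0 x hx D hD N hN).1 h0
      · exact (hW0 x hx D hD N hN).2 h0) (by
      intro p hp hpB x hx
      obtain ⟨w, hw, rfl⟩ := Multiset.mem_map.1 hp
      exact hreg w hw hpB x hx)
    refine ⟨_, N0, fun p hp => ?_, h1⟩
    obtain ⟨h2, h3⟩ := Multiset.mem_filter.1 hp
    obtain ⟨w, hw, rfl⟩ := Multiset.mem_map.1 h2
    exact ⟨w, Finset.mem_filter.2 ⟨Multiset.mem_toFinset.2 hw, h3⟩, rfl⟩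

end ZtbAux

open ZtbAux Pool.Newt2.ZtwAux in
theorem sZtb (hZfm : SZfm) (hMba : SMba) (hPsi : SPsi) (hPsb : SPsb) (hInb : SInb)
    (hMem : SMem) : SZtb := by
  intro k _ _ σ I _ _ _ a c hc hn B hB
  have hR : ∃ R : Finset (σ → ℕ), (∀ w ∈ R, Rigid a w ∧ 0 < Nw a w ∧
      -((∑ j, w j : ℕ) : ℚ) / (Nw a w : ℚ) ∉ B) ∧
      ∀ D : Finset I → ℤ, Inv2 a D → ∀ Φ : PowerSeries (LaurentPolynomial ℤ),
      ((D ∅ = 0 ∧ Φ = Psi a D) ∨ (D ∅ = 1 ∧ Φ = (1 - PowerSeries.X) * Psi a D - QQ a)) →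
      ∃ (W' : Multiset (ℕ × ℕ)) (N0 : ℕ), (∀ p ∈ W', ∃ w ∈ R, p = (∑ j, w j, Nw a w)) ∧
        ∀ N, N0 ≤ N → PowerSeries.coeff N (dP W' * Φ) = 0 := by
    rcases isEmpty_or_nonempty σ with he | he
    · refine ⟨∅, fun w hw => absurd hw (Finset.notMem_empty w), fun D _ Φ hΦ =>
        ⟨0, 0, fun p hp => absurd hp (Multiset.notMem_zero p), fun N _ => ?_⟩⟩
      have h0 : Φ = 0 := by
        rcases hΦ with ⟨-, rfl⟩ | ⟨-, rfl⟩
        · exact Psi_zero a D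
        · rw [Psi_zero, QQ_zero, mul_zero, sub_zero]
      rw [h0, mul_zero, map_zero]
    · exact ZtbAux.key hPsi hPsb hInb a B hB
  obtain ⟨R, hR1, hR2⟩ := hR
  refine ⟨R, hR1, ?_⟩
  set S : Set (ℤ × ℕ) := {((-1 : ℤ), (1 : ℕ))} ∪
    {p | ∃ w ∈ R, p = (-((∑ j, w j : ℕ) : ℤ), Nw a w)} with hS
  have hS0 : ∀ p ∈ S, 0 < p.2 := by
    rintro p (hp | ⟨w, hw, rfl⟩)
    · rw [Set.mem_singleton_iff.1 hp]
      exact Nat.one_pos
    · exact (hR1 w hw).2.1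
  have hS1 : ((-1 : ℤ), (1 : ℕ)) ∈ S := Or.inl rfl
  have hmem : ∀ D : Finset I → ℤ, Inv2 a D → ∀ Φ : PowerSeries (LaurentPolynomial ℤ),
      ((D ∅ = 0 ∧ Φ = Psi a D) ∨ (D ∅ = 1 ∧ Φ = (1 - PowerSeries.X) * Psi a D - QQ a)) →
      PowerSeries.map (ev (Lu k)) Φ ∈ RS k S := by
    intro D hD Φ hΦ
    obtain ⟨W', N0, h1, h2⟩ := hR2 D hD Φ hΦ
    refine hMem k S hS0 Φ W' N0 (fun p hp => ?_) h2
    obtain ⟨w, hw, rfl⟩ := h1 p hp
    exact Or.inr ⟨w, hw, rfl⟩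
  obtain ⟨C, hC1, hC2, hC3, Z0, hZ0, hZ⟩ := hZfm k σ I a c hc hn
  rw [hZ]
  refine (RS k S).add_mem (rs_mono (k := k) (Set.singleton_subset_iff.2 hS1) hZ0)
    (hMba k σ I a C hC1 hC2 hC3 S hS1 (fun D hD h0 => hmem D hD _ (Or.inl ⟨h0, rfl⟩))
      (fun D hD h0 => hmem D hD _ (Or.inr ⟨h0, rfl⟩)))

end Pool.Newt3
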